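import Mathlib

/-!
# The `(k,a)`-Schwartz type space on the line: the test function `|x|^{1-2k} exp(-|x|^a/a)`
-/

open MeasureTheory Set Filter Topology
open scoped Real

namespace Pool.Agent.X187.KB

/-- Dunkl Laplacian on the line. -/
noncomputable def dunklLaplacian (k : ℝ) (f : ℝ → ℂ) (x : ℝ) : ℂ :=
  deriv (deriv f) x + (2 * k / x : ℝ) * deriv f x - (k : ℂ) * ((f x - f (-x)) / (x : ℂ) ^ 2)

/-- Radial derivative of order `l`. -/
noncomputable def radialDeriv (l : ℕ) (f : ℝ → ℂ) (x : ℝ) : ℂ :=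
  iteratedDeriv l (fun r : ℝ => f (r * (x / |x|))) |x|

/-- The `(k,a)`-Schwartz type space on the line. -/
def schwartzType (k a : ℝ) : Set (ℝ → ℂ) :=
  {f | ContDiffOn ℝ (⊤ : ℕ∞) f {0}ᶜ ∧ ∀ α β l : ℕ, ∃ C : ℝ, ∀ x : ℝ, x ≠ 0 →
    ‖(((|x| ^ a) ^ α : ℝ) : ℂ) *
      ((fun (g : ℝ → ℂ) (y : ℝ) => ((|y| ^ (2 - a) : ℝ) : ℂ) * dunklLaplacian k g y)^[β]
        (fun y => ((|y| ^ l : ℝ) : ℂ) * radialDeriv l f y)) x‖ ≤ C}

/-- The test function. -/
noncomputable def tf (k a : ℝ) (x : ℝ) : ℂ :=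
  ((|x| ^ (1 - 2 * k) * Real.exp (-|x| ^ a / a) : ℝ) : ℂ)

/-- The family of weights on the half line. -/
noncomputable def W (a σ : ℝ) (P : Polynomial ℂ) (r : ℝ) : ℂ :=
  ((r ^ σ * Real.exp (-r ^ a / a) : ℝ) : ℂ) * P.eval ((r ^ a : ℝ) : ℂ)

/-- Action of the derivative on the polynomial part. -/
noncomputable def DD (a σ : ℝ) (P : Polynomial ℂ) : Polynomial ℂ :=
  Polynomial.C (σ : ℂ) * P + Polynomial.C (a : ℂ) * Polynomial.X * Polynomial.derivative P
    - Polynomial.X * P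

theorem hasDeriv_W {a : ℝ} (ha : 0 < a) (σ : ℝ) (P : Polynomial ℂ) {r : ℝ} (hr : 0 < r) :
    HasDerivAt (W a σ P) (W a (σ - 1) (DD a σ P) r) r := by
  have h1 : HasDerivAt (fun r : ℝ => r ^ σ) (σ * r ^ (σ - 1)) r :=
    Real.hasDerivAt_rpow_const (Or.inl hr.ne')
  have h2 : HasDerivAt (fun r : ℝ => r ^ a) (a * r ^ (a - 1)) r :=
    Real.hasDerivAt_rpow_const (Or.inl hr.ne')
  have h3 : HasDerivAt (fun r : ℝ => Real.exp (-r ^ a / a))
      (Real.exp (-r ^ a / a) * (-(a * r ^ (a - 1)) / a)) r := (h2.neg.div_const a).exp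
  have h4 := (h1.mul h3).ofReal_comp
  have h5 : HasDerivAt (fun r : ℝ => P.eval ((r ^ a : ℝ) : ℂ))
      ((Polynomial.derivative P).eval ((r ^ a : ℝ) : ℂ) * ((a * r ^ (a - 1) : ℝ) : ℂ)) r :=
    HasDerivAt.comp (h₂ := fun z : ℂ => P.eval z) r (P.hasDerivAt ((r ^ a : ℝ) : ℂ)) h2.ofReal_comp
  refine (h4.mul h5).congr_deriv ?_
  have e1 : r ^ (a - 1) = r ^ a / r := Real.rpow_sub_one hr.ne' a
  have e2 : r ^ (σ - 1) = r ^ σ / r := Real.rpow_sub_one hr.ne' σ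
  have hrc : (r : ℂ) ≠ 0 := by exact_mod_cast hr.ne'
  have hac : (a : ℂ) ≠ 0 := by exact_mod_cast ha.ne'
  simp only [W, DD, e1, e2, Polynomial.eval_sub, Polynomial.eval_add, Polynomial.eval_mul,
    Polynomial.eval_X, Polynomial.eval_C, Pi.mul_apply]
  push_cast
  field_simp
  ring

/-- Even functions given by a weight. -/
def EW (a s : ℝ) (g : ℝ → ℂ) : Prop := ∃ P : Polynomial ℂ, ∀ x : ℝ, x ≠ 0 → g x = W a s P |x|

theorem deriv_even {a : ℝ} (ha : 0 < a) {s : ℝ} {P : Polynomial ℂ} {g : ℝ → ℂ}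
    (hg : ∀ x : ℝ, x ≠ 0 → g x = W a s P |x|) {x : ℝ} (hx : x ≠ 0) :
    deriv g x = ((x / |x| : ℝ) : ℂ) * W a (s - 1) (DD a s P) |x| := by
  rcases lt_or_gt_of_ne hx with h | h
  · have hx' : 0 < -x := by linarith
    have h1 : HasDerivAt (fun y : ℝ => W a s P (-y)) (-(W a (s - 1) (DD a s P) (-x))) x := by
      have := (hasDeriv_W ha s P hx').scomp x (hasDerivAt_neg x)
      simpa [Function.comp_def] using this
    have h2 : g =ᶠ[𝓝 x] fun y : ℝ => W a s P (-y) := by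
      filter_upwards [Iio_mem_nhds h] with y hy
      have hy' : y < 0 := hy
      rw [hg y hy'.ne, abs_of_neg hy']
    rw [(h1.congr_of_eventuallyEq h2).deriv, abs_of_neg h, div_neg, div_self hx]
    simp
  · have h2 : g =ᶠ[𝓝 x] W a s P := by
      filter_upwards [Ioi_mem_nhds h] with y hy
      have hy' : 0 < y := hy
      rw [hg y hy'.ne', abs_of_pos hy']
    rw [((hasDeriv_W ha s P h).congr_of_eventuallyEq h2).deriv, abs_of_pos h, div_self hx]
    simp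

theorem deriv_odd {a : ℝ} (ha : 0 < a) {s : ℝ} {P : Polynomial ℂ} {g : ℝ → ℂ}
    (hg : ∀ x : ℝ, x ≠ 0 → g x = ((x / |x| : ℝ) : ℂ) * W a s P |x|) {x : ℝ} (hx : x ≠ 0) :
    deriv g x = W a (s - 1) (DD a s P) |x| := by
  rcases lt_or_gt_of_ne hx with h | h
  · have hx' : 0 < -x := by linarith
    have h1 : HasDerivAt (fun y : ℝ => -(W a s P (-y))) (W a (s - 1) (DD a s P) (-x)) x := by
      have h0 : HasDerivAt (fun y : ℝ => W a s P (-y)) (-(W a (s - 1) (DD a s P) (-x))) x := by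
        have := (hasDeriv_W ha s P hx').scomp x (hasDerivAt_neg x)
        simpa [Function.comp_def] using this
      exact h0.neg.congr_deriv (neg_neg _)
    have h2 : g =ᶠ[𝓝 x] fun y : ℝ => -(W a s P (-y)) := by
      filter_upwards [Iio_mem_nhds h] with y hy
      have hy' : y < 0 := hy
      rw [hg y hy'.ne, abs_of_neg hy', div_neg, div_self hy'.ne]
      simp
    rw [(h1.congr_of_eventuallyEq h2).deriv, abs_of_neg h]
  · have h2 : g =ᶠ[𝓝 x] W a s P := by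
      filter_upwards [Ioi_mem_nhds h] with y hy
      have hy' : 0 < y := hy
      rw [hg y hy'.ne', abs_of_pos hy', div_self hy'.ne']
      simp
    rw [((hasDeriv_W ha s P h).congr_of_eventuallyEq h2).deriv, abs_of_pos h]

theorem EW.op {k a s : ℝ} (ha : 0 < a) (hs : s = 1 - 2 * k) {g : ℝ → ℂ} (hg : EW a s g) :
    EW a s (fun y => ((|y| ^ (2 - a) : ℝ) : ℂ) * dunklLaplacian k g y) := by
  obtain ⟨P, hP⟩ := hg
  refine ⟨Polynomial.C (a : ℂ) * Polynomial.derivative (DD a s P) - DD a s P, fun x hx => ?_⟩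
  have hr : 0 < |x| := abs_pos.2 hx
  have hd1 := fun (y : ℝ) (hy : y ≠ 0) => deriv_even ha hP hy
  have hd2 := deriv_odd ha hd1 hx
  have hev : g (-x) = g x := by rw [hP x hx, hP (-x) (neg_ne_zero.2 hx), abs_neg]
  simp only [dunklLaplacian]
  rw [hd2, hd1 x hx, hev, sub_self, zero_div, mul_zero, sub_zero]
  generalize hQ : DD a s P = Q
  set r := |x| with hrdef
  have e1 : r ^ (s - 1) = r ^ s / r := Real.rpow_sub_one hr.ne' s
  have e2 : r ^ (s - 1 - 1) = r ^ s / r / r := by rw [Real.rpow_sub_one hr.ne', e1]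
  have e3 : r ^ (2 - a) = r ^ 2 / r ^ a := by rw [Real.rpow_sub hr, Real.rpow_two]
  have hrc : (r : ℂ) ≠ 0 := by exact_mod_cast hr.ne'
  have hxc : (x : ℂ) ≠ 0 := by exact_mod_cast hx
  have hta : ((r ^ a : ℝ) : ℂ) ≠ 0 := by exact_mod_cast (Real.rpow_pos_of_pos hr a).ne'
  simp only [W, e1, e2, e3]
  have hDD : (DD a (s - 1) Q).eval ((r ^ a : ℝ) : ℂ) = ((s : ℂ) - 1) * Q.eval ((r ^ a : ℝ) : ℂ)
      + (a : ℂ) * ((r ^ a : ℝ) : ℂ) * (Polynomial.derivative Q).eval ((r ^ a : ℝ) : ℂ)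
      - ((r ^ a : ℝ) : ℂ) * Q.eval ((r ^ a : ℝ) : ℂ) := by
    simp only [DD, Polynomial.eval_sub, Polynomial.eval_add, Polynomial.eval_mul,
      Polynomial.eval_X, Polynomial.eval_C]
    push_cast; ring
  rw [hDD]
  simp only [Polynomial.eval_sub, Polynomial.eval_mul, Polynomial.eval_C]
  have hsc : (s : ℂ) = 1 - 2 * (k : ℂ) := by rw [hs]; push_cast; ring
  rw [hsc]
  push_cast
  generalize ((r ^ a : ℝ) : ℂ) = t at *
  field_simp
  ring

theorem EW.iter {k a s : ℝ} (ha : 0 < a) (hs : s = 1 - 2 * k) {g : ℝ → ℂ} (hg : EW a s g)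
    (β : ℕ) : EW a s
    ((fun (g : ℝ → ℂ) (y : ℝ) => ((|y| ^ (2 - a) : ℝ) : ℂ) * dunklLaplacian k g y)^[β] g) := by
  induction β with
  | zero => exact hg
  | succ n ih =>
    rw [Function.iterate_succ_apply']
    exact ih.op ha hs

theorem tf_eq (k a x : ℝ) : tf k a x = W a (1 - 2 * k) 1 |x| := by
  simp [tf, W]

theorem iter_W {a : ℝ} (ha : 0 < a) (s : ℝ) (l : ℕ) : ∃ P : Polynomial ℂ, ∀ r : ℝ, 0 < r →
    iteratedDeriv l (W a s 1) r = W a (s - l) P r := by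
  induction l with
  | zero => exact ⟨1, fun r _ => by simp⟩
  | succ n ih =>
    obtain ⟨P, hP⟩ := ih
    refine ⟨DD a (s - n) P, fun r hr => ?_⟩
    rw [iteratedDeriv_succ]
    have h2 : iteratedDeriv n (W a s 1) =ᶠ[𝓝 r] W a (s - n) P := by
      filter_upwards [Ioi_mem_nhds hr] with y hy using hP y hy
    rw [((hasDeriv_W ha (s - n) P hr).congr_of_eventuallyEq h2).deriv]
    congr 1
    push_cast; ring

theorem tf_radial {a : ℝ} (ha : 0 < a) (k : ℝ) (l : ℕ) :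
    EW a (1 - 2 * k) (fun y => ((|y| ^ l : ℝ) : ℂ) * radialDeriv l (tf k a) y) := by
  obtain ⟨P, hP⟩ := iter_W ha (1 - 2 * k) l
  refine ⟨P, fun x hx => ?_⟩
  have hr : 0 < |x| := abs_pos.2 hx
  have e : radialDeriv l (tf k a) x = W a (1 - 2 * k - l) P |x| := by
    rw [radialDeriv]
    have : (fun r : ℝ => tf k a (r * (x / |x|))) =ᶠ[𝓝 |x|] W a (1 - 2 * k) 1 := by
      filter_upwards [Ioi_mem_nhds hr] with r hr'
      have hr'' : 0 < r := hr'
      rw [tf_eq, abs_mul, abs_div, abs_abs, div_self hr.ne', mul_one, abs_of_pos hr'']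
    rw [this.iteratedDeriv_eq, hP _ hr]
  simp only [e, W]
  rw [Real.rpow_sub hr, Real.rpow_natCast]
  have hrc : ((|x| : ℝ) : ℂ) ≠ 0 := by exact_mod_cast hr.ne'
  push_cast
  field_simp

/-- Bound for powers against the exponential. -/
theorem pow_exp {a : ℝ} (ha : 0 < a) (n : ℕ) {t : ℝ} (ht : 0 ≤ t) :
    t ^ n * Real.exp (-t / a) ≤ n.factorial * a ^ n := by
  have h1 : (t / a) ^ n / n.factorial ≤ Real.exp (t / a) :=
    Real.pow_div_factorial_le_exp _ (by positivity) n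
  have hn : (0 : ℝ) < n.factorial := by positivity
  have h2 : t ^ n ≤ n.factorial * a ^ n * Real.exp (t / a) := by
    rw [div_le_iff₀ hn, div_pow, div_le_iff₀ (by positivity)] at h1; linarith
  calc t ^ n * Real.exp (-t / a) ≤ (n.factorial * a ^ n * Real.exp (t / a)) * Real.exp (-t / a) :=
        mul_le_mul_of_nonneg_right h2 (Real.exp_pos _).le
    _ = n.factorial * a ^ n := by
        rw [mul_assoc, ← Real.exp_add, neg_div, add_neg_cancel, Real.exp_zero, mul_one]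

theorem W_bound {a : ℝ} (ha : 0 < a) {s : ℝ} (hs : 0 ≤ s) (P : Polynomial ℂ) (n : ℕ) :
    ∃ C : ℝ, ∀ r : ℝ, 0 < r → (r ^ a) ^ n * ‖W a s P r‖ ≤ C := by
  induction P using Polynomial.induction_on' with
  | add p q hp hq =>
    obtain ⟨C, hC⟩ := hp
    obtain ⟨D, hD⟩ := hq
    refine ⟨C + D, fun r hr => ?_⟩
    have e : W a s (p + q) r = W a s p r + W a s q r := by
      simp only [W, Polynomial.eval_add]; ring
    have hp : 0 ≤ (r ^ a) ^ n := by positivity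
    rw [e]
    calc (r ^ a) ^ n * ‖W a s p r + W a s q r‖ ≤ (r ^ a) ^ n * (‖W a s p r‖ + ‖W a s q r‖) :=
          mul_le_mul_of_nonneg_left (norm_add_le _ _) hp
      _ ≤ C + D := by rw [mul_add]; exact add_le_add (hC r hr) (hD r hr)
  | monomial i c =>
    refine ⟨‖c‖ * ((n + i).factorial * a ^ (n + i)
      + (n + i + ⌈s / a⌉₊).factorial * a ^ (n + i + ⌈s / a⌉₊)), fun r hr => ?_⟩
    have ht : 0 < r ^ a := Real.rpow_pos_of_pos hr a
    have h1 : r ^ s ≤ 1 + (r ^ a) ^ ⌈s / a⌉₊ := by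
      rcases le_total r 1 with h | h
      · have : r ^ s ≤ 1 := Real.rpow_le_one hr.le h hs
        have h2 : 0 ≤ (r ^ a) ^ ⌈s / a⌉₊ := by positivity
        linarith
      · have h2 : r ^ s = (r ^ a) ^ (s / a) := by
          rw [← Real.rpow_mul hr.le]; congr 1; field_simp
        have h3 : (r ^ a) ^ (s / a) ≤ (r ^ a) ^ ((⌈s / a⌉₊ : ℕ) : ℝ) :=
          Real.rpow_le_rpow_of_exponent_le (Real.one_le_rpow h ha.le) (Nat.le_ceil _)
        rw [Real.rpow_natCast] at h3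
        linarith
    simp only [W]
    rw [Polynomial.eval_monomial, norm_mul, norm_mul, norm_pow, Complex.norm_real,
      Complex.norm_real, Real.norm_eq_abs, Real.norm_eq_abs, abs_of_pos ht, abs_of_pos
      (mul_pos (Real.rpow_pos_of_pos hr s) (Real.exp_pos _))]
    have hb1 := pow_exp ha (n + i) ht.le
    have hb2 := pow_exp ha (n + i + ⌈s / a⌉₊) ht.le
    have hE := Real.exp_pos (-r ^ a / a)
    calc (r ^ a) ^ n * (r ^ s * Real.exp (-r ^ a / a) * (‖c‖ * (r ^ a) ^ i))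
        = ‖c‖ * (r ^ s * ((r ^ a) ^ (n + i) * Real.exp (-r ^ a / a))) := by rw [pow_add]; ring
      _ ≤ ‖c‖ * ((1 + (r ^ a) ^ ⌈s / a⌉₊) * ((r ^ a) ^ (n + i) * Real.exp (-r ^ a / a))) := by
          gcongr
      _ = ‖c‖ * ((r ^ a) ^ (n + i) * Real.exp (-r ^ a / a)
          + (r ^ a) ^ (n + i + ⌈s / a⌉₊) * Real.exp (-r ^ a / a)) := by
          rw [pow_add _ (n + i)]; ring
      _ ≤ _ := by gcongr

theorem tf_mem {k a : ℝ} (ha : 0 < a) (hk : 2 * k < 1) : tf k a ∈ schwartzType k a := by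
  refine ⟨?_, ?_⟩
  · intro x hx
    have hx' : x ≠ 0 := hx
    refine ContDiffAt.contDiffWithinAt ?_
    have h0 : ContDiffAt ℝ (⊤ : ℕ∞) (fun x : ℝ => |x|) x := contDiffAt_abs hx'
    have h1 : ContDiffAt ℝ (⊤ : ℕ∞) (fun x : ℝ => |x| ^ (1 - 2 * k)) x :=
      h0.rpow_const_of_ne (abs_ne_zero.2 hx')
    have h2 : ContDiffAt ℝ (⊤ : ℕ∞) (fun x : ℝ => |x| ^ a) x :=
      h0.rpow_const_of_ne (abs_ne_zero.2 hx')
    have h3 : ContDiffAt ℝ (⊤ : ℕ∞)
        (fun x : ℝ => |x| ^ (1 - 2 * k) * Real.exp (-|x| ^ a / a)) x :=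
      h1.mul ((h2.neg.div_const a).exp)
    exact Complex.ofRealCLM.contDiff.contDiffAt.comp x h3
  · intro α β l
    obtain ⟨P, hP⟩ := (tf_radial ha k l).iter ha rfl β
    obtain ⟨C, hC⟩ := W_bound ha (by linarith : (0 : ℝ) ≤ 1 - 2 * k) P α
    refine ⟨C, fun x hx => ?_⟩
    have hr : 0 < |x| := abs_pos.2 hx
    rw [hP x hx, norm_mul, Complex.norm_real, Real.norm_eq_abs, abs_of_nonneg (by positivity)]
    exact hC _ hr

end Pool.Agent.X187.KB
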