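import Mathlib

/-!
# The series `∑ (-z)^m / Γ(m+b)`
-/

open MeasureTheory Set Filter Topology
open scoped Real

namespace Pool.Agent.X187.KB

/-- The series. -/
noncomputable def TT (b z : ℝ) : ℝ := ∑' m : ℕ, (-1) ^ m / Real.Gamma (m + b) * z ^ m

/-- The derivative series. -/
noncomputable def TD (b z : ℝ) : ℝ :=
  ∑' m : ℕ, (-1) ^ m / Real.Gamma (m + b) * (m * z ^ (m - 1))

theorem gamma_lower {b : ℝ} (hb : 0 < b) (n : ℕ) :
    Real.Gamma (1 + b) * n.factorial ≤ Real.Gamma ((n + 1 : ℕ) + b) := by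
  induction n with
  | zero => simp
  | succ n ih =>
    have e : Real.Gamma ((n + 1 + 1 : ℕ) + b)
        = ((n + 1 : ℕ) + b) * Real.Gamma ((n + 1 : ℕ) + b) := by
      rw [← Real.Gamma_add_one (by positivity)]
      congr 1; push_cast; ring
    rw [e, Nat.factorial_succ]
    have h1 : 0 < Real.Gamma (1 + b) := Real.Gamma_pos_of_pos (by positivity)
    push_cast at ih ⊢
    calc Real.Gamma (1 + b) * ((n + 1) * (n.factorial : ℝ))
        = (n + 1) * (Real.Gamma (1 + b) * n.factorial) := by ring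
      _ ≤ (n + 1 + b) * Real.Gamma (n + 1 + b) := by
          apply mul_le_mul _ ih (by positivity) (by positivity)
          linarith

theorem summable_aux {b : ℝ} (hb : 0 < b) (R : ℝ) (hR : 0 ≤ R) :
    Summable (fun m : ℕ => (m + 1) * R ^ m / Real.Gamma (m + b)) := by
  rw [← summable_nat_add_iff 1]
  have h0 : 0 < Real.Gamma (1 + b) := Real.Gamma_pos_of_pos (by positivity)
  have hs : Summable (fun n : ℕ => (2 * R / Real.Gamma (1 + b)) * ((2 * R) ^ n / n.factorial)) :=
    (Real.summable_pow_div_factorial (2 * R)).mul_left _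
  refine Summable.of_nonneg_of_le (fun n => ?_) (fun n => ?_) hs
  · have : 0 < Real.Gamma ((n + 1 : ℕ) + b) := Real.Gamma_pos_of_pos (by positivity)
    positivity
  · have hg := gamma_lower hb n
    have hf : (0 : ℝ) < n.factorial := by positivity
    have h2 : ((n : ℝ) + 1 + 1) ≤ 2 * 2 ^ n := by
      have h1 : n < 2 ^ n := Nat.lt_two_pow_self
      have : n + 1 + 1 ≤ 2 * 2 ^ n := by omega
      exact_mod_cast this
    rw [div_le_iff₀ (lt_of_lt_of_le (by positivity) hg)]
    calc ((n + 1 : ℕ) + 1) * R ^ (n + 1) ≤ (2 * 2 ^ n) * R ^ (n + 1) := by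
          push_cast; gcongr
      _ = 2 * R / Real.Gamma (1 + b) * ((2 * R) ^ n / n.factorial)
          * (Real.Gamma (1 + b) * n.factorial) := by
          field_simp; ring
      _ ≤ _ := by gcongr

theorem summable_T {b : ℝ} (hb : 0 < b) (z : ℝ) :
    Summable (fun m : ℕ => (-1) ^ m / Real.Gamma (m + b) * z ^ m) := by
  refine Summable.of_norm_bounded (summable_aux hb |z| (abs_nonneg z)) fun m => ?_
  have hg : 0 < Real.Gamma (m + b) := Real.Gamma_pos_of_pos (by positivity)
  rw [norm_mul, norm_div, norm_pow, norm_neg, norm_one, one_pow, norm_pow, Real.norm_eq_abs,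
    Real.norm_eq_abs, abs_of_pos hg, one_div, div_eq_mul_inv, mul_comm]
  gcongr
  have : 0 ≤ |z| ^ m := by positivity
  nlinarith [(Nat.cast_nonneg m : (0 : ℝ) ≤ m)]

theorem bound_D {b : ℝ} (hb : 0 < b) {R z : ℝ} (hz : |z| ≤ R) (m : ℕ) :
    ‖(-1) ^ m / Real.Gamma (m + b) * (m * z ^ (m - 1))‖
      ≤ (m + 1) * (R + 1) ^ m / Real.Gamma (m + b) := by
  have hg : 0 < Real.Gamma (m + b) := Real.Gamma_pos_of_pos (by positivity)
  have hR : 0 ≤ R := (abs_nonneg z).trans hz
  rw [norm_mul, norm_div, norm_pow, norm_neg, norm_one, one_pow, norm_mul, norm_pow,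
    Real.norm_eq_abs, Real.norm_eq_abs, Real.norm_eq_abs, abs_of_pos hg, one_div,
    div_eq_mul_inv, mul_comm, Nat.abs_cast]
  gcongr
  · linarith
  · calc |z| ^ (m - 1) ≤ (R + 1) ^ (m - 1) := by gcongr; linarith
      _ ≤ (R + 1) ^ m := pow_le_pow_right₀ (by linarith) (Nat.sub_le _ _)

theorem hasDeriv_T {b : ℝ} (hb : 0 < b) (z : ℝ) : HasDerivAt (TT b) (TD b z) z := by
  have hz : z ∈ Metric.ball (0 : ℝ) (|z| + 1) := by
    rw [Metric.mem_ball, dist_zero_right, Real.norm_eq_abs]; linarith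
  have key := hasDerivAt_tsum_of_isPreconnected (𝕜 := ℝ) (F := ℝ)
    (g := fun (m : ℕ) (z : ℝ) => (-1) ^ m / Real.Gamma (m + b) * z ^ m)
    (g' := fun (m : ℕ) (z : ℝ) => (-1) ^ m / Real.Gamma (m + b) * (m * z ^ (m - 1)))
    (u := fun m : ℕ => (m + 1) * ((|z| + 1) + 1) ^ m / Real.Gamma (m + b))
    (t := Metric.ball (0 : ℝ) (|z| + 1)) (y₀ := z) (y := z)
    (summable_aux hb _ (by positivity)) Metric.isOpen_ball
    (convex_ball _ _).isPreconnected (fun n y _ => (hasDerivAt_pow n y).const_mul _)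
    (fun n y hy => by
      refine bound_D hb ?_ n
      rw [Metric.mem_ball, dist_zero_right, Real.norm_eq_abs] at hy
      exact hy.le) hz (summable_T hb z) hz
  exact key

theorem hasSum_of_eq {f g : ℕ → ℝ} {s : ℝ} (h : HasSum f s) (e : ∀ n, g n = f n) :
    HasSum g s := by
  have : g = f := funext e
  rwa [this]

/-- The differential equation `z T' + (z + b - 1) T = (b-1)/Γ(b)`. -/
theorem ode {b : ℝ} (hb : 0 < b) (z : ℝ) :
    z * TD b z + (z + b - 1) * TT b z = (b - 1) / Real.Gamma b := by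
  have hT : HasSum (fun m : ℕ => (-1) ^ m / Real.Gamma (m + b) * z ^ m) (TT b z) :=
    (summable_T hb z).hasSum
  have hD : HasSum (fun m : ℕ => (-1) ^ m / Real.Gamma (m + b) * (m * z ^ (m - 1))) (TD b z) :=
    (Summable.of_norm_bounded (summable_aux hb (|z| + 1) (by positivity))
      (fun m => bound_D hb le_rfl m)).hasSum
  have h1 : HasSum (fun m : ℕ => (-1) ^ m / Real.Gamma (m + b) * ((m + b - 1) * z ^ m))
      (z * TD b z + (b - 1) * TT b z) := by
    have h := (hD.mul_left z).add (hT.mul_left (b - 1))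
    refine hasSum_of_eq h fun m => ?_
    rcases m with _ | m
    · simp; ring
    · simp only [Nat.add_sub_cancel, pow_succ z]; ring
  have h3 : HasSum (fun n : ℕ => (-1) ^ (n + 1) / Real.Gamma ((n + 1 : ℕ) + b)
      * (((n + 1 : ℕ) + b - 1) * z ^ (n + 1))) (-z * TT b z) := by
    have h := hT.mul_left (-z)
    refine hasSum_of_eq h fun n => ?_
    have hpos : (0 : ℝ) < n + b := by positivity
    have e : Real.Gamma ((n + 1 : ℕ) + b) = (n + b) * Real.Gamma (n + b) := by
      rw [← Real.Gamma_add_one hpos.ne']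
      congr 1; push_cast; ring
    have hg : Real.Gamma (n + b) ≠ 0 := (Real.Gamma_pos_of_pos hpos).ne'
    rw [e]
    push_cast
    field_simp
    ring
  have h2 := HasSum.zero_add (f := fun m : ℕ => (-1) ^ m / Real.Gamma (m + b)
    * ((m + b - 1) * z ^ m)) h3
  have := h1.unique h2
  simp only [pow_zero, Nat.cast_zero, zero_add, mul_one] at this
  have e : (1 : ℝ) / Real.Gamma b * (b - 1) = (b - 1) / Real.Gamma b := by ring
  rw [e] at this
  linarith

end Pool.Agent.X187.KB
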