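import Pool.Agent.X187.KB.Mem
import Pool.Agent.X187.KB.Ser

/-!
# The `(k,a)`-generalized Fourier transform of the test function
-/

open MeasureTheory Set Filter Topology
open scoped Real

namespace Pool.Agent.X187.KB

/-- The normalised Bessel function `(w/2)^{-ν} J_ν(w)`. -/
noncomputable def besselTilde (ν w : ℝ) : ℝ :=
  ∑' m : ℕ, (-1) ^ m * (w / 2) ^ (2 * m) / (m.factorial * Real.Gamma (m + ν + 1))

/-- The `(k,a)`-generalized Fourier transform on the line, through its integral kernel. -/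
noncomputable def transform (k a : ℝ) (f : ℝ → ℂ) (y : ℝ) : ℂ :=
  ((Real.Gamma ((2 * k + a - 1) / a) /
      ∫ x : ℝ, Real.exp (-|x| ^ a / a) * |x| ^ (2 * k + a - 2) : ℝ) : ℂ) *
   ((∫ x : ℝ, ((besselTilde ((2 * k - 1) / a) (2 / a * |x * y| ^ (a / 2))
        * |x| ^ (2 * k + a - 2) : ℝ) : ℂ) * f x)
    + Complex.exp (-(π / a : ℝ) * Complex.I) * ((a ^ (-(2 / a)) : ℝ) : ℂ) *
      ∫ x : ℝ, ((x * y * besselTilde ((2 * k + 1) / a) (2 / a * |x * y| ^ (a / 2))
        * |x| ^ (2 * k + a - 2) : ℝ) : ℂ) * f x)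

theorem mom {a : ℝ} (ha : 0 < a) (m : ℕ) :
    ∫ r in Ioi (0 : ℝ), r ^ (a * m + a - 1) * Real.exp (-(1 / a) * r ^ a)
      = a ^ m * m.factorial := by
  have hq : -1 < a * m + a - 1 := by
    have : 0 ≤ a * m := by positivity
    linarith
  rw [integral_rpow_mul_exp_neg_mul_rpow ha hq (by positivity)]
  have e1 : (a * m + a - 1 + 1) / a = m + 1 := by field_simp; ring
  have e2 : -(a * m + a - 1 + 1) / a = -((m + 1 : ℕ) : ℝ) := by
    push_cast; field_simp; ring
  rw [e1, e2, Real.Gamma_nat_eq_factorial, Real.rpow_neg (by positivity), Real.rpow_natCast,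
    one_div, inv_pow, inv_inv, pow_succ]
  field_simp

theorem mom_int {a : ℝ} (ha : 0 < a) (m : ℕ) :
    IntegrableOn (fun r : ℝ => r ^ (a * m + a - 1) * Real.exp (-(1 / a) * r ^ a)) (Ioi 0) := by
  by_contra h
  have h1 := mom ha m
  rw [integral_undef h] at h1
  have : 0 < a ^ m * (m.factorial : ℝ) := by positivity
  linarith

theorem main_int {a b : ℝ} (ha : 0 < a) (hb : 0 < b) (y : ℝ) :
    ∫ r in Ioi (0 : ℝ), besselTilde (b - 1) (2 / a * |r * y| ^ (a / 2))
      * (r ^ (a - 1) * Real.exp (-r ^ a / a)) = TT b (|y| ^ a / a) := by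
  set c : ℕ → ℝ := fun m => (-1) ^ m * (|y| ^ a / a ^ 2) ^ m / (m.factorial * Real.Gamma (m + b))
    with hc
  have hg : ∀ m : ℕ, 0 < Real.Gamma (m + b) := fun m => Real.Gamma_pos_of_pos (by positivity)
  have hya : 0 ≤ |y| ^ a := by positivity
  have hcm : ∀ m, c m * (a ^ m * m.factorial)
      = (-1) ^ m / Real.Gamma (m + b) * (|y| ^ a / a) ^ m := by
    intro m
    have := (hg m).ne'
    have hf : (m.factorial : ℝ) ≠ 0 := by positivity
    simp only [hc, div_pow]
    have e : (a ^ 2) ^ m = a ^ m * a ^ m := by rw [← pow_mul, two_mul, pow_add]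
    rw [e]
    field_simp
  have hcn : ∀ m, |c m| * (a ^ m * m.factorial)
      = ‖(-1) ^ m / Real.Gamma (m + b) * (|y| ^ a / a) ^ m‖ := by
    intro m
    rw [← hcm, norm_mul, Real.norm_eq_abs, Real.norm_eq_abs,
      abs_of_pos (by positivity : 0 < a ^ m * (m.factorial : ℝ))]
  have key := hasSum_integral_of_summable_integral_norm (μ := volume.restrict (Ioi (0 : ℝ)))
    (F := fun (m : ℕ) (r : ℝ) => c m * (r ^ (a * m + a - 1) * Real.exp (-(1 / a) * r ^ a)))
    (fun m => (mom_int ha m).const_mul _) (by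
      have e : ∀ m : ℕ, ∫ r in Ioi (0 : ℝ),
          ‖c m * (r ^ (a * m + a - 1) * Real.exp (-(1 / a) * r ^ a))‖
          = ‖(-1) ^ m / Real.Gamma (m + b) * (|y| ^ a / a) ^ m‖ := by
        intro m
        rw [← hcn, ← mom ha m, ← integral_const_mul]
        refine setIntegral_congr_fun measurableSet_Ioi fun r hr => ?_
        have hr' : 0 < r := hr
        rw [norm_mul, Real.norm_eq_abs, Real.norm_eq_abs, abs_of_pos
          (mul_pos (Real.rpow_pos_of_pos hr' _) (Real.exp_pos _))]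
      simp only [e]
      exact (summable_T hb _).norm)
  have e1 : (fun m : ℕ => ∫ r in Ioi (0 : ℝ),
      c m * (r ^ (a * m + a - 1) * Real.exp (-(1 / a) * r ^ a)))
      = fun m : ℕ => (-1) ^ m / Real.Gamma (m + b) * (|y| ^ a / a) ^ m := by
    funext m
    rw [integral_const_mul, mom ha m, hcm]
  rw [e1] at key
  have h2 := key.unique (summable_T hb _).hasSum
  rw [TT, ← h2]
  refine setIntegral_congr_fun measurableSet_Ioi fun r hr => ?_
  have hr' : 0 < r := hr
  simp only [besselTilde]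
  rw [← tsum_mul_right]
  congr 1
  funext m
  have ew : (2 / a * |r * y| ^ (a / 2) / 2) ^ (2 * m) = (r ^ a * (|y| ^ a / a ^ 2)) ^ m := by
    rw [pow_mul]
    congr 1
    have h3 : (|r * y| ^ (a / 2)) ^ 2 = r ^ a * |y| ^ a := by
      rw [← Real.rpow_natCast, ← Real.rpow_mul (abs_nonneg _), abs_mul, abs_of_pos hr',
        Real.mul_rpow hr'.le (abs_nonneg _)]
      norm_num
    have h4 : (2 / a * |r * y| ^ (a / 2) / 2) ^ 2 = (|r * y| ^ (a / 2)) ^ 2 / a ^ 2 := by
      field_simp
    rw [h4, h3]; ring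
  have eb : (m : ℝ) + (b - 1) + 1 = m + b := by ring
  have er : r ^ (a * m + a - 1) = (r ^ a) ^ m * r ^ (a - 1) := by
    rw [← Real.rpow_natCast, ← Real.rpow_mul hr'.le, ← Real.rpow_add hr']
    congr 1; ring
  have ee : -(1 / a) * r ^ a = -r ^ a / a := by ring
  rw [ew, eb, er, ee, mul_pow]
  simp only [hc]
  ring

theorem norm_const {k a : ℝ} (ha : 0 < a) (hk : 0 < 2 * k + a - 1) :
    0 < ∫ x : ℝ, Real.exp (-|x| ^ a / a) * |x| ^ (2 * k + a - 2) := by
  rw [integral_comp_abs (f := fun x : ℝ => Real.exp (-x ^ a / a) * x ^ (2 * k + a - 2))]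
  have e : ∫ r in Ioi (0 : ℝ), Real.exp (-r ^ a / a) * r ^ (2 * k + a - 2)
      = ∫ r in Ioi (0 : ℝ), r ^ (2 * k + a - 2) * Real.exp (-(1 / a) * r ^ a) := by
    refine setIntegral_congr_fun measurableSet_Ioi fun r _ => ?_
    have ee : -(1 / a) * r ^ a = -r ^ a / a := by ring
    simp only [ee]; ring
  rw [e, integral_rpow_mul_exp_neg_mul_rpow ha (by linarith) (by positivity)]
  have : 0 < Real.Gamma ((2 * k + a - 2 + 1) / a) :=
    Real.Gamma_pos_of_pos (div_pos (by linarith) ha)
  positivity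

/-- The constant in front of the transform of the test function. -/
noncomputable def AA (k a : ℝ) : ℝ :=
  Real.Gamma ((2 * k + a - 1) / a) /
      (∫ x : ℝ, Real.exp (-|x| ^ a / a) * |x| ^ (2 * k + a - 2)) * 2

theorem transform_tf {k a : ℝ} (ha : 0 < a) (hk : 0 < 2 * k + a - 1) (y : ℝ) :
    transform k a (tf k a) y
      = ((AA k a * TT ((2 * k + a - 1) / a) (|y| ^ a / a) : ℝ) : ℂ) := by
  have hb : 0 < (2 * k + a - 1) / a := div_pos hk ha
  have hodd : ∫ x : ℝ, ((x * y * besselTilde ((2 * k + 1) / a) (2 / a * |x * y| ^ (a / 2))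
        * |x| ^ (2 * k + a - 2) : ℝ) : ℂ) * tf k a x = 0 := by
    set h : ℝ → ℂ := fun x => ((x * y * besselTilde ((2 * k + 1) / a)
      (2 / a * |x * y| ^ (a / 2)) * |x| ^ (2 * k + a - 2) : ℝ) : ℂ) * tf k a x with hh
    have h1 : ∀ x, h (-x) = -h x := by
      intro x
      simp only [hh, tf, abs_neg, neg_mul]
      push_cast; ring
    have h2 : ∫ x, h x = -∫ x, h x := by
      rw [← integral_neg]
      simp only [← h1]
      exact (integral_neg_eq_self h volume).symm
    exact CharZero.eq_neg_self_iff.1 h2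
  have hev : ∫ x : ℝ, ((besselTilde ((2 * k - 1) / a) (2 / a * |x * y| ^ (a / 2))
        * |x| ^ (2 * k + a - 2) : ℝ) : ℂ) * tf k a x
      = ((2 * TT ((2 * k + a - 1) / a) (|y| ^ a / a) : ℝ) : ℂ) := by
    set H : ℝ → ℝ := fun r => besselTilde ((2 * k - 1) / a) (2 / a * |r * y| ^ (a / 2))
        * r ^ (2 * k + a - 2) * (r ^ (1 - 2 * k) * Real.exp (-r ^ a / a)) with hH
    have e1 : (fun x : ℝ => ((besselTilde ((2 * k - 1) / a) (2 / a * |x * y| ^ (a / 2))
        * |x| ^ (2 * k + a - 2) : ℝ) : ℂ) * tf k a x) = fun x => ((H |x| : ℝ) : ℂ) := by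
      funext x
      have : |(|x| * y)| = |x * y| := by rw [abs_mul, abs_abs, abs_mul]
      simp only [tf, hH, this]
      push_cast; ring
    have e4 : ∫ x : ℝ, ((H |x| : ℝ) : ℂ) = ((∫ x : ℝ, H |x| : ℝ) : ℂ) := integral_ofReal
    rw [e1, e4, integral_comp_abs (f := H), ← main_int ha hb y]
    congr 2
    refine setIntegral_congr_fun measurableSet_Ioi fun r hr => ?_
    have hr' : 0 < r := hr
    have e2 : (2 * k + a - 1) / a - 1 = (2 * k - 1) / a := by field_simp; ring
    have e3 : r ^ (2 * k + a - 2) * r ^ (1 - 2 * k) = r ^ (a - 1) := by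
      rw [← Real.rpow_add hr']; congr 1; ring
    simp only [hH, e2, ← e3]
    ring
  rw [transform, hodd, hev, mul_zero, add_zero, AA]
  push_cast
  ring

theorem AA_pos {k a : ℝ} (ha : 0 < a) (hk : 0 < 2 * k + a - 1) : 0 < AA k a := by
  have h1 := norm_const ha hk
  have h2 : 0 < Real.Gamma ((2 * k + a - 1) / a) := Real.Gamma_pos_of_pos (div_pos hk ha)
  unfold AA
  positivity

theorem not_mem {k a : ℝ} (ha : 0 < a) (hk : 0 < 2 * k + a - 1) (hk1 : 2 * k < 1) :
    transform k a (tf k a) ∉ schwartzType k a := by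
  intro h
  set b : ℝ := (2 * k + a - 1) / a with hbdef
  have hb : 0 < b := div_pos hk ha
  have hb1 : b < 1 := by rw [hbdef, div_lt_one ha]; linarith
  have hA := AA_pos ha hk
  set A := AA k a with hAdef
  have hG : 0 < Real.Gamma b := Real.Gamma_pos_of_pos hb
  obtain ⟨C, hC⟩ := h.2 2 0 0
  obtain ⟨D, hD⟩ := h.2 1 0 1
  set κ : ℝ := (1 - b) / Real.Gamma b with hκ
  have hκ0 : 0 < κ := div_pos (by linarith) hG
  have hbd : ∀ z : ℝ, 1 ≤ z → κ * z ≤ (D + 2 * C) / (a ^ 2 * A) := by
    intro z hz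
    have hz0 : 0 < z := by linarith
    set y : ℝ := (a * z) ^ (1 / a) with hy
    have hy0 : 0 < y := Real.rpow_pos_of_pos (by positivity) _
    have hya : y ^ a = a * z := by
      rw [hy, ← Real.rpow_mul (by positivity), one_div_mul_cancel ha.ne', Real.rpow_one]
    have hza : y ^ a / a = z := by rw [hya]; field_simp
    have h1 := hC y hy0.ne'
    have h2 := hD y hy0.ne'
    have r0 : radialDeriv 0 (transform k a (tf k a)) y = ((A * TT b z : ℝ) : ℂ) := by
      simp only [radialDeriv, iteratedDeriv_zero]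
      rw [abs_of_pos hy0, div_self hy0.ne', mul_one, transform_tf ha hk, abs_of_pos hy0, hza]
    have r1 : radialDeriv 1 (transform k a (tf k a)) y
        = ((A * (TD b z * y ^ (a - 1)) : ℝ) : ℂ) := by
      simp only [radialDeriv, iteratedDeriv_one]
      rw [abs_of_pos hy0, div_self hy0.ne']
      have e : (fun r : ℝ => transform k a (tf k a) (r * 1)) =ᶠ[𝓝 y]
          fun r : ℝ => ((A * TT b (r ^ a / a) : ℝ) : ℂ) := by
        filter_upwards [Ioi_mem_nhds hy0] with r hr
        have hr' : 0 < r := hr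
        rw [mul_one, transform_tf ha hk, abs_of_pos hr']
      have h3 : HasDerivAt (fun r : ℝ => r ^ a / a) (a * y ^ (a - 1) / a) y :=
        (Real.hasDerivAt_rpow_const (Or.inl hy0.ne')).div_const a
      have h4 : HasDerivAt (TT b) (TD b z) (y ^ a / a) := by rw [hza]; exact hasDeriv_T hb z
      have h5 : HasDerivAt (fun r : ℝ => TT b (r ^ a / a)) (TD b z * (a * y ^ (a - 1) / a)) y :=
        HasDerivAt.comp (h₂ := TT b) y h4 h3
      have h6 := (h5.const_mul A).ofReal_comp
      rw [(h6.congr_of_eventuallyEq e).deriv]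
      congr 3
      field_simp
    simp only [Function.iterate_zero, id, r0, r1, pow_zero, pow_one, Complex.ofReal_one, one_mul,
      norm_mul, Complex.norm_real, Real.norm_eq_abs, abs_of_pos hy0, abs_abs,
      abs_of_pos hA, hya] at h1 h2
    rw [abs_of_nonneg (by positivity : (0 : ℝ) ≤ (a * z) ^ 2)] at h1
    rw [abs_of_pos ha, abs_of_pos hz0, abs_of_pos (Real.rpow_pos_of_pos hy0 _)] at h2
    have e5 : y * y ^ (a - 1) = a * z := by
      rw [Real.rpow_sub_one hy0.ne', hya]; field_simp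
    have h2' : (a * z) ^ 2 * (A * |TD b z|) ≤ D := by
      calc (a * z) ^ 2 * (A * |TD b z|) = (a * z) * ((y * y ^ (a - 1)) * (A * |TD b z|)) := by
            rw [e5]; ring
        _ = (a * z) * (y * (A * (|TD b z| * y ^ (a - 1)))) := by ring
        _ ≤ D := h2
    have hode := ode hb z
    have hk2 : κ ≤ z * |TD b z| + (2 * z) * |TT b z| := by
      have e6 : κ = -(z * TD b z + (z + b - 1) * TT b z) := by rw [hode, hκ]; ring
      rw [e6]
      have a1 : -(z * TD b z) ≤ z * |TD b z| := by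
        have := neg_abs_le (TD b z)
        nlinarith
      have a2 : -((z + b - 1) * TT b z) ≤ (2 * z) * |TT b z| := by
        have h7 := neg_abs_le (TT b z)
        have h8 : 0 ≤ z + b - 1 := by linarith
        have h9 : z + b - 1 ≤ 2 * z := by linarith
        nlinarith [abs_nonneg (TT b z)]
      linarith
    rw [le_div_iff₀ (by positivity)]
    calc κ * z * (a ^ 2 * A) ≤ (z * |TD b z| + (2 * z) * |TT b z|) * z * (a ^ 2 * A) := by
          gcongr
      _ = (a * z) ^ 2 * (A * |TD b z|) + 2 * ((a * z) ^ 2 * (A * |TT b z|)) := by ring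
      _ ≤ D + 2 * C := by linarith
  set M := (D + 2 * C) / (a ^ 2 * A) with hM
  have hM1 := hbd 1 le_rfl
  have hM0 : 0 < M := by linarith
  have h2 := hbd (1 + M / κ) (by
    have : 0 < M / κ := div_pos hM0 hκ0
    linarith)
  have h3 : κ * (1 + M / κ) = κ + M := by field_simp
  linarith

end Pool.Agent.X187.KB
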